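import Pool.Agent.Q53.LFY.Twelve

/-!
# The configuration of the planes
-/

set_option autoImplicit false

namespace Pool.Agent.Q53.LFY

open Finset

section sets


/-- half of a set with a free involution -/
theorem exists_transversal {α : Type*} [DecidableEq α] (C : Finset α) (σ : α → α) (h2 : ∀ x ∈ C, σ (σ x) = x)
    (h3 : ∀ x ∈ C, σ x ≠ x) (k : ℕ) (hk : 2 * k ≤ C.card) :
    ∃ D ⊆ C, D.card = k ∧ ∀ x ∈ D, σ x ∉ D := by
  induction k with
  | zero => exact ⟨∅, by simp⟩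
  | succ k ih =>
    obtain ⟨D, hD, hcard, hσ⟩ := ih (by omega)
    have h4 : (D ∪ D.image σ).card < C.card := by
      have h5 := card_union_le D (D.image σ)
      have h6 := card_image_le (s := D) (f := σ)
      omega
    obtain ⟨x, hx, hx'⟩ := exists_mem_notMem_of_card_lt_card h4
    rw [mem_union, not_or] at hx'
    refine ⟨insert x D, insert_subset hx hD, by rw [card_insert_of_notMem hx'.1, hcard], ?_⟩
    intro y hy hy'
    rcases mem_insert.1 hy with rfl | hy
    · rcases mem_insert.1 hy' with h | h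
      · exact h3 y hx h
      · exact hx'.2 (mem_image.2 ⟨_, h, h2 y hx⟩)
    · rcases mem_insert.1 hy' with h | h
      · exact hx'.2 (mem_image.2 ⟨y, hy, h⟩)
      · exact hσ y hy h

/-- the cardinality of a set with a free involution is even -/
theorem even_card_of_involution {α : Type*} (C : Finset α) (σ : α → α) (h1 : ∀ x ∈ C, σ x ∈ C)
    (h2 : ∀ x ∈ C, σ (σ x) = x) (h3 : ∀ x ∈ C, σ x ≠ x) : Even C.card := by
  have h4 : ∑ x ∈ C, (1 : ZMod 2) = 0 :=
    Finset.sum_involution (fun x _ => σ x) (fun x _ => by decide) (fun x hx _ => h3 x hx)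
      (fun x hx => h1 x hx) (fun x hx => h2 x hx)
  rw [sum_const, nsmul_eq_mul, mul_one] at h4
  exact even_iff_two_dvd.2 ((ZMod.natCast_eq_zero_iff _ _).1 h4)

end sets

namespace CubLat

variable {H : CubLat}

theorem IsCubic.pm (hH : H.IsCubic) (hE : H.AllEven) {P Q : Fin 23 → ℤ}
    (hP : H.IsPl P) (hQ : H.IsPl Q) (hne : P ≠ Q) : H.ip P Q = 1 ∨ H.ip P Q = -1 := by
  have h1 := hE P hP Q hQ.1
  rw [ip_sub_right, hQ.2.1, hH.comm Q P] at h1
  have h2 := hH.pos (P - Q) (H.isHodge_sub hP.1 hQ.1) (sub_ne_zero.2 hne)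
  simp only [ip_sub_left, ip_sub_right, hH.comm Q P, hP.2.2, hQ.2.2] at h2
  have h3 : 0 ≤ H.ip (H.h - P - Q) (H.h - P - Q) :=
    hH.nonneg (H.isHodge_sub (H.isHodge_sub hH.h_hodge hP.1) hQ.1)
  simp only [ip_sub_left, ip_sub_right, hH.comm Q P, hP.2.2, hQ.2.2, hH.comm H.h P,
    hH.comm H.h Q, hP.2.1, hQ.2.1, hH.h_self] at h3
  obtain ⟨m, hm⟩ := h1
  omega

theorem IsCubic.third (hH : H.IsCubic) {P Q : Fin 23 → ℤ} (hP : H.IsPl P)
    (hQ : H.IsPl Q) (h : H.ip P Q = -1) : H.IsPl (H.h - P - Q) := by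
  refine ⟨H.isHodge_sub (H.isHodge_sub hH.h_hodge hP.1) hQ.1, ?_, ?_⟩
  · simp only [ip_sub_left, hH.h_self, hP.2.1, hQ.2.1]
    norm_num
  · simp only [ip_sub_left, ip_sub_right, hH.comm Q P, hP.2.2, hQ.2.2, hH.comm H.h P,
      hH.comm H.h Q, hP.2.1, hQ.2.1, hH.h_self, h]
    norm_num

theorem ip_third {T P Q : Fin 23 → ℤ} (hT : H.IsPl T) :
    H.ip T (H.h - P - Q) = 1 - H.ip T P - H.ip T Q := by
  rw [ip_sub_right, ip_sub_right, hT.2.1]

/-- Three planes with sum `h`. -/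
structure Tri (H : CubLat) (A B C : Fin 23 → ℤ) : Prop where
  a : H.IsPl A
  b : H.IsPl B
  c : H.IsPl C
  ab : H.ip A B = -1
  ac : H.ip A C = -1
  bc : H.ip B C = -1
  sum : A + B + C = H.h

theorem Tri.rot (hH : H.IsCubic) {A B C : Fin 23 → ℤ} (h : H.Tri A B C) : H.Tri B C A :=
  ⟨h.b, h.c, h.a, h.bc, (hH.comm _ _).trans h.ab, (hH.comm _ _).trans h.ac, by
    rw [← h.sum]; abel⟩

theorem Tri.swap (hH : H.IsCubic) {A B C : Fin 23 → ℤ} (h : H.Tri A B C) : H.Tri A C B :=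
  ⟨h.a, h.c, h.b, h.ac, h.ab, (hH.comm _ _).trans h.bc, by
    rw [← h.sum]; abel⟩

theorem IsCubic.tri (hH : H.IsCubic) {P Q : Fin 23 → ℤ} (hP : H.IsPl P)
    (hQ : H.IsPl Q) (h : H.ip P Q = -1) : H.Tri P Q (H.h - P - Q) := by
  refine ⟨hP, hQ, hH.third hP hQ h, h, ?_, ?_, by abel⟩
  · rw [ip_third hP, hP.2.2, h]; norm_num
  · rw [ip_third hQ, hQ.2.2, hH.comm, h]; norm_num

/-- The planes outside of the triangle which meet `A` in a line. -/
def InCls (H : CubLat) (A B C x : Fin 23 → ℤ) : Prop :=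
  H.IsPl x ∧ x ≠ B ∧ x ≠ C ∧ H.ip x A = -1

theorem InCls.swap {A B C x : Fin 23 → ℤ} (h : H.InCls A B C x) : H.InCls A C B x :=
  ⟨h.1, h.2.2.1, h.2.1, h.2.2.2⟩

theorem InCls.other (hH : H.IsCubic) (hE : H.AllEven) {A B C x : Fin 23 → ℤ}
    (ht : H.Tri A B C) (h : H.InCls A B C x) : H.ip x B = 1 ∧ H.ip x C = 1 := by
  have h1 := hH.pm hE h.1 ht.b h.2.1
  have h2 := hH.pm hE h.1 ht.c h.2.2.1
  have h3 : H.ip x A + H.ip x B + H.ip x C = 1 := by
    rw [← ip_add_right, ← ip_add_right, ht.sum, h.1.2.1]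
  have h4 := h.2.2.2
  omega

/-- every other plane is in exactly one class -/
theorem IsCubic.cases (hH : H.IsCubic) (hE : H.AllEven) {A B C x : Fin 23 → ℤ}
    (ht : H.Tri A B C) (hx : H.IsPl x) : x = A ∨ x = B ∨ x = C ∨ H.InCls A B C x ∨
      H.InCls B C A x ∨ H.InCls C A B x := by
  by_cases h1 : x = A
  · exact Or.inl h1
  by_cases h2 : x = B
  · exact Or.inr (Or.inl h2)
  by_cases h3 : x = C
  · exact Or.inr (Or.inr (Or.inl h3))
  have h4 := hH.pm hE hx ht.a h1
  have h5 := hH.pm hE hx ht.b h2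
  have h6 := hH.pm hE hx ht.c h3
  have h7 : H.ip x A + H.ip x B + H.ip x C = 1 := by
    rw [← ip_add_right, ← ip_add_right, ht.sum, hx.2.1]
  have h8 : H.ip x A = -1 ∨ H.ip x B = -1 ∨ H.ip x C = -1 := by omega
  rcases h8 with h | h | h
  · exact Or.inr (Or.inr (Or.inr (Or.inl ⟨hx, h2, h3, h⟩)))
  · exact Or.inr (Or.inr (Or.inr (Or.inr (Or.inl ⟨hx, h3, h1, h⟩))))
  · exact Or.inr (Or.inr (Or.inr (Or.inr (Or.inr ⟨hx, h1, h2, h⟩))))

/-- the residual plane is in the same class -/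
theorem InCls.res (hH : H.IsCubic) {A B C x : Fin 23 → ℤ}
    (ht : H.Tri A B C) (h : H.InCls A B C x) : H.InCls A B C (H.h - A - x) := by
  refine ⟨hH.third ht.a h.1 ((hH.comm _ _).trans h.2.2.2), ?_, ?_, ?_⟩
  · intro h1
    apply h.2.2.1
    rw [← ht.sum] at h1
    linear_combination -h1
  · intro h1
    apply h.2.1
    rw [← ht.sum] at h1
    linear_combination -h1
  · rw [hH.comm, ip_third ht.a, ht.a.2.2, hH.comm A x, h.2.2.2]
    norm_num

/-- two planes in the same class which are not residual -/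
theorem InCls.pair (hH : H.IsCubic) (hE : H.AllEven) {A B C x y : Fin 23 → ℤ}
    (ht : H.Tri A B C) (hx : H.InCls A B C x) (hy : H.InCls A B C y) (hne : x ≠ y)
    (hne' : y ≠ H.h - A - x) : H.ip x y = 1 := by
  rcases hH.pm hE hx.1 hy.1 hne with h | h
  · exact h
  · exfalso
    have h1 := hH.third ht.a hx.1 ((hH.comm _ _).trans hx.2.2.2)
    have h2 := hH.pm hE hy.1 h1 hne'
    rw [ip_third hy.1, hy.2.2.2, hH.comm y x, h] at h2
    omega

/-- **At most four pairs** in a class if another class is not empty. -/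
theorem IsCubic.bessel (hH : H.IsCubic) (hE : H.AllEven) {A B C Q : Fin 23 → ℤ}
    {D : Fin 5 → Fin 23 → ℤ} (ht : H.Tri A B C) (hD : ∀ i, H.InCls A B C (D i))
    (hDD : ∀ i j, i ≠ j → H.ip (D i) (D j) = 1) (hQ : H.InCls B C A Q) : False := by
  classical
  have q1 := (InCls.other hH hE (ht.rot hH) hQ).2
  have d1 := fun i => (InCls.other hH hE ht (hD i)).1
  have hε : ∀ i, H.ip Q (D i) = 1 ∨ H.ip Q (D i) = -1 := by
    intro i
    refine hH.pm hE hQ.1 (hD i).1 ?_
    intro h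
    have h1 := hQ.2.2.2
    rw [h, d1 i] at h1
    omega
  have hsq : ∀ i, H.ip Q (D i) * H.ip Q (D i) = 1 := by
    intro i
    rcases hε i with h | h <;> rw [h] <;> norm_num
  let a := (2 : ℤ) • Q + B - H.h
  let u : Fin 5 → Fin 23 → ℤ := fun i => (2 : ℤ) • D i + A - H.h
  have c1 : H.ip B Q = -1 := (hH.comm _ _).trans hQ.2.2.2
  have c2 : H.ip A Q = 1 := (hH.comm _ _).trans q1
  have c3 : ∀ i, H.ip A (D i) = -1 := fun i => (hH.comm _ _).trans (hD i).2.2.2
  have c4 : ∀ i, H.ip B (D i) = 1 := fun i => (hH.comm _ _).trans (d1 i)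
  have haa : H.ip a a = 8 := by
    simp only [a, ip_sub_left, ip_sub_right, ip_add_left, ip_add_right, ip_smul_left,
      ip_smul_right, hQ.1.2.2, hQ.2.2.2, hQ.1.2.1, c1, ht.b.2.2, ht.b.2.1, hH.comm H.h Q,
      hH.comm H.h B, hH.h_self]
    norm_num
  have hau : ∀ i, H.ip a (u i) = 4 * H.ip Q (D i) := by
    intro i
    simp only [a, u, ip_sub_left, ip_sub_right, ip_add_left, ip_add_right, ip_smul_left,
      ip_smul_right, hQ.1.2.1, q1, c4, hH.comm B A, ht.ab, ht.b.2.1, hH.comm H.h (D i),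
      (hD i).1.2.1, hH.comm H.h A, ht.a.2.1, hH.h_self]
    ring
  have huu : ∀ i j, H.ip (u i) (u j) = if i = j then 8 else 0 := by
    intro i j
    by_cases h : i = j
    · rw [if_pos h, h]
      simp only [u, ip_sub_left, ip_sub_right, ip_add_left, ip_add_right, ip_smul_left,
        ip_smul_right, (hD j).1.2.2, (hD j).2.2.2, (hD j).1.2.1, c3, ht.a.2.2, ht.a.2.1,
        hH.comm H.h (D j), hH.comm H.h A, hH.h_self]
      norm_num
    · rw [if_neg h]
      simp only [u, ip_sub_left, ip_sub_right, ip_add_left, ip_add_right, ip_smul_left,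
        ip_smul_right, hDD i j h, (hD i).2.2.2, (hD i).1.2.1, c3, ht.a.2.2, ht.a.2.1,
        hH.comm H.h (D j), (hD j).1.2.1, hH.comm H.h A, hH.h_self]
      norm_num
  have hua : ∀ i, H.ip (u i) a = 4 * H.ip Q (D i) := fun i => (hH.comm _ _).trans (hau i)
  have haH : H.IsHodge a := H.isHodge_sub (H.isHodge_add (H.isHodge_smul _ hQ.1.1) ht.b.1)
    hH.h_hodge
  have huH : ∀ i, H.IsHodge (u i) := fun i =>
    H.isHodge_sub (H.isHodge_add (H.isHodge_smul _ (hD i).1.1) ht.a.1) hH.h_hodge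
  let t : Fin 23 → ℤ := ∑ i, H.ip Q (D i) • u i
  have htH : H.IsHodge t := H.isHodge_sum _ _ fun i _ => H.isHodge_smul _ (huH i)
  have hat : H.ip a t = 20 := by
    simp only [t, ip_sum_right, ip_smul_right, hau]
    have e1 : ∀ i, H.ip Q (D i) * (4 * H.ip Q (D i)) = 4 := by
      intro i
      have := hsq i
      linarith
    simp only [e1, sum_const, card_univ, Fintype.card_fin]
    norm_num
  have htt : H.ip t t = 40 := by
    have e2 : ∀ i, H.ip (u i) t = H.ip Q (D i) * 8 := by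
      intro i
      simp only [t, ip_sum_right, ip_smul_right, huu, mul_ite, mul_zero, Finset.sum_ite_eq,
        Finset.mem_univ, if_true]
    have e3 : H.ip t t = ∑ i, H.ip Q (D i) * H.ip (u i) t := by
      conv_lhs => rw [show t = ∑ i, H.ip Q (D i) • u i from rfl, ip_sum_left]
      simp only [ip_smul_left]
      rfl
    have e4 : ∀ i, H.ip Q (D i) * (H.ip Q (D i) * 8) = 8 := by
      intro i
      have := hsq i
      linarith
    rw [e3]
    simp only [e2, e4, sum_const, card_univ, Fintype.card_fin]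
    norm_num
  have hw := hH.nonneg (v := (2 : ℤ) • a - t) (H.isHodge_sub (H.isHodge_smul _ haH) htH)
  simp only [ip_sub_left, ip_sub_right, ip_smul_left, ip_smul_right, haa, hat, htt,
    hH.comm t a] at hw
  norm_num at hw

end CubLat

end Pool.Agent.Q53.LFY
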