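import Pool.Agent.Q53.LFY.Comb

/-!
# The number of the planes
-/

set_option autoImplicit false

namespace Pool.Agent.Q53.LFY

open Finset

namespace CubLat

variable {H : CubLat}

open Classical in
/-- the class as a finite set -/
noncomputable def cls (H : CubLat) (S : Finset (Fin 23 → ℤ)) (A B C : Fin 23 → ℤ) :
    Finset (Fin 23 → ℤ) := S.filter (H.InCls A B C)

theorem mem_cls {S : Finset (Fin 23 → ℤ)} (hS : ∀ v, v ∈ S ↔ H.IsPl v) {A B C x : Fin 23 → ℤ} :
    x ∈ H.cls S A B C ↔ H.InCls A B C x := by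
  classical
  unfold cls
  rw [mem_filter, hS]
  exact ⟨fun h => h.2, fun h => ⟨h.1, h⟩⟩

theorem InCls.ne_res {A B C x : Fin 23 → ℤ} (h : H.InCls A B C x) :
    H.h - A - x ≠ x := by
  intro h1
  have h2 := ip_third (P := A) (Q := x) h.1
  rw [h1, h.1.2.2, h.2.2.2] at h2
  norm_num at h2

theorem cls_even (hH : H.IsCubic) {S : Finset (Fin 23 → ℤ)} {A B C : Fin 23 → ℤ}
    (hS : ∀ x, x ∈ H.cls S A B C ↔ H.InCls A B C x) (ht : H.Tri A B C) :
    Even (H.cls S A B C).card := by
  refine even_card_of_involution _ (fun x => H.h - A - x) ?_ ?_ ?_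
  · intro x hx
    rw [hS] at hx ⊢
    exact hx.res hH ht
  · intro x _
    abel
  · intro x hx
    exact InCls.ne_res ((hS x).1 hx)

/-- the third plane of a triangle with vertices in two classes -/
theorem InCls.thirdCls (hH : H.IsCubic) (hE : H.AllEven) {A B C x y : Fin 23 → ℤ}
    (ht : H.Tri A B C) (hx : H.InCls A B C x) (hy : H.InCls B C A y) (h : H.ip x y = -1) :
    H.InCls C A B (H.h - x - y) := by
  obtain ⟨x1, x2⟩ := InCls.other hH hE ht hx
  obtain ⟨y1, y2⟩ := InCls.other hH hE (ht.rot hH) hy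
  refine ⟨hH.third hx.1 hy.1 h, ?_, ?_, ?_⟩
  · intro h1
    have h2 : H.ip (H.h - x - y) A = 3 := by rw [h1, ht.a.2.2]
    rw [ip_sub_left, ip_sub_left, hH.comm H.h A, ht.a.2.1, hx.2.2.2, y2] at h2
    norm_num at h2
  · intro h1
    have h2 : H.ip (H.h - x - y) B = 3 := by rw [h1, ht.b.2.2]
    rw [ip_sub_left, ip_sub_left, hH.comm H.h B, ht.b.2.1, hy.2.2.2, x1] at h2
    norm_num at h2
  · rw [ip_sub_left, ip_sub_left, hH.comm H.h C, ht.c.2.1, x2, y1]
    norm_num

theorem cls_card_eq (hH : H.IsCubic) (hE : H.AllEven) {S : Finset (Fin 23 → ℤ)}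
    (hS : ∀ v, v ∈ S ↔ H.IsPl v) {A B C x : Fin 23 → ℤ} (ht : H.Tri A B C)
    (hx : H.InCls A B C x) : (H.cls S B C A).card = (H.cls S C A B).card := by
  classical
  have key : ∀ {A B C : Fin 23 → ℤ}, H.Tri A B C → H.InCls A B C x → (H.cls S B C A).card =
      2 * ((H.cls S B C A).filter fun y => H.ip x y = -1).card := by
    intro A B C ht hx
    rw [← card_filter_add_card_filter_not (s := H.cls S B C A) (fun y => H.ip x y = -1), two_mul]
    congr 1
    have hxB := (InCls.other hH hE ht hx).1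
    have hflip : ∀ y, H.ip x (H.h - B - y) = -H.ip x y := by
      intro y
      rw [ip_third hx.1, hxB]
      ring
    refine (card_bij (fun y _ => H.h - B - y) ?_ ?_ ?_).symm
    · intro y hy
      rw [mem_filter, mem_cls hS] at hy ⊢
      refine ⟨hy.1.res hH (ht.rot hH), ?_⟩
      rw [hflip, hy.2]
      norm_num
    · intro y _ y' _ h
      have h' : y = y' := by linear_combination -h
      exact h'
    · intro y hy
      rw [mem_filter, mem_cls hS] at hy
      have h1 : H.ip x y = 1 ∨ H.ip x y = -1 := by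
        refine hH.pm hE hx.1 hy.1.1 ?_
        rintro rfl
        have h2 := hy.1.2.2.2
        rw [hxB] at h2
        norm_num at h2
      refine ⟨H.h - B - y, ?_, by abel⟩
      rw [mem_filter, mem_cls hS]
      refine ⟨hy.1.res hH (ht.rot hH), ?_⟩
      rw [hflip]
      rcases h1 with h1 | h1
      · rw [h1]
      · exact absurd h1 hy.2
  have ht' := ht.swap hH
  have hx' := hx.swap
  have h2 := key ht' hx'
  have e1 : H.cls S C B A = H.cls S C A B := by
    ext y
    rw [mem_cls hS, mem_cls hS]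
    exact ⟨fun h => h.swap, fun h => h.swap⟩
  rw [e1] at h2
  rw [key ht hx, h2]
  congr 1
  have hz : ∀ y, H.ip x (H.h - x - y) = -2 - H.ip x y := by
    intro y
    rw [ip_third hx.1, hx.1.2.2]
    ring
  refine card_bij (fun y _ => H.h - x - y) ?_ ?_ ?_
  · intro y hy
    rw [mem_filter, mem_cls hS] at hy ⊢
    refine ⟨InCls.thirdCls hH hE ht hx hy.1 hy.2, ?_⟩
    rw [hz, hy.2]
    norm_num
  · intro y _ y' _ h
    have h' : y = y' := by linear_combination -h
    exact h'
  · intro y hy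
    rw [mem_filter, mem_cls hS] at hy
    refine ⟨H.h - x - y, ?_, by abel⟩
    rw [mem_filter, mem_cls hS]
    refine ⟨(InCls.thirdCls hH hE ht' hx' hy.1.swap hy.2).swap, ?_⟩
    rw [hz, hy.2]
    norm_num

/-- independent elements in a class -/
theorem exists_indep_cls (hH : H.IsCubic) (hE : H.AllEven) {S : Finset (Fin 23 → ℤ)}
    {A B C : Fin 23 → ℤ} (hS : ∀ x, x ∈ H.cls S A B C ↔ H.InCls A B C x) (ht : H.Tri A B C) (k : ℕ)
    (hk : 2 * k ≤ (H.cls S A B C).card) : ∃ D : Fin k → Fin 23 → ℤ,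
      (∀ i, H.InCls A B C (D i)) ∧ ∀ i j, i ≠ j → H.ip (D i) (D j) = 1 := by
  classical
  obtain ⟨D, hD, hcard, hσ⟩ := exists_transversal (H.cls S A B C) (fun x => H.h - A - x)
    (fun x _ => by abel) (fun x hx => InCls.ne_res ((hS x).1 hx)) k hk
  have e : Fin k ≃ D := Fintype.equivOfCardEq (by rw [Fintype.card_fin, Fintype.card_coe, hcard])
  have h1 : ∀ i, H.InCls A B C (e i) := fun i => (hS _).1 (hD (e i).2)
  refine ⟨fun i => e i, h1, fun i j hij => InCls.pair hH hE ht (h1 i) (h1 j) ?_ ?_⟩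
  · intro h
    exact hij (e.injective (Subtype.ext h))
  · intro h
    apply hσ (e i) (e i).2
    rw [← h]
    exact (e j).2

theorem cls_ten (hH : H.IsCubic) (hE : H.AllEven) {S : Finset (Fin 23 → ℤ)}
    (hS : ∀ v, v ∈ S ↔ H.IsPl v) {A B C : Fin 23 → ℤ} (ht : H.Tri A B C)
    (h10 : 10 ≤ (H.cls S A B C).card) : (H.cls S B C A).card = 0 := by
  rw [card_eq_zero, eq_empty_iff_forall_notMem]
  intro Q hQ
  obtain ⟨D, h1, h2⟩ := exists_indep_cls hH hE (fun x => mem_cls hS) ht 5 h10
  exact hH.bessel hE ht h1 h2 ((mem_cls hS).1 hQ)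

theorem cls_twenty (hH : H.IsCubic) (hE : H.AllEven) {S : Finset (Fin 23 → ℤ)}
    {A B C : Fin 23 → ℤ} (hS : ∀ x, x ∈ H.cls S A B C ↔ H.InCls A B C x) (ht : H.Tri A B C) :
    (H.cls S A B C).card < 20 := by
  by_contra h20
  obtain ⟨D, h1, h2⟩ := exists_indep_cls hH hE hS ht 10 (by omega)
  have hB : ∀ i, H.ip (D i) B = 1 := fun i => (InCls.other hH hE ht (h1 i)).1
  refine hH.twelve hE (δ := -1) (Or.inr rfl) (P0 := A) (P := Fin.cons B D) ht.a ?_ ?_ ?_
  · intro j
    refine Fin.cases ?_ (fun i => ?_) j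
    · exact ht.b
    · exact (h1 i).1
  · intro j
    refine Fin.cases ?_ (fun i => ?_) j
    · exact ht.ab
    · rw [hH.comm]
      exact (h1 i).2.2.2
  · intro i j
    refine Fin.cases ?_ (fun i => ?_) i
    · refine Fin.cases ?_ (fun j => ?_) j
      · intro h
        exact absurd rfl h
      · intro _
        rw [hH.comm]
        exact hB j
    · refine Fin.cases ?_ (fun j => ?_) j
      · intro _
        exact hB i
      · intro h
        exact h2 i j fun h' => h (by rw [h'])

theorem card_decomp (hH : H.IsCubic) (hE : H.AllEven) {S : Finset (Fin 23 → ℤ)}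
    (hS : ∀ v, v ∈ S ↔ H.IsPl v) {A B C : Fin 23 → ℤ} (ht : H.Tri A B C) :
    S.card = 3 + (H.cls S A B C).card + (H.cls S B C A).card + (H.cls S C A B).card := by
  classical
  have hAB : A ≠ B := by
    intro h
    have h1 := ht.ab
    rw [← h, ht.a.2.2] at h1
    norm_num at h1
  have hAC : A ≠ C := by
    intro h
    have h1 := ht.ac
    rw [← h, ht.a.2.2] at h1
    norm_num at h1
  have hBC : B ≠ C := by
    intro h
    have h1 := ht.bc
    rw [← h, ht.b.2.2] at h1
    norm_num at h1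
  have hself : ∀ {A B C : Fin 23 → ℤ}, H.Tri A B C → ¬ H.InCls A B C A := by
    intro A B C ht h
    have h1 := h.2.2.2
    rw [ht.a.2.2] at h1
    norm_num at h1
  have hdis : ∀ {A B C x : Fin 23 → ℤ}, H.Tri A B C → H.InCls A B C x → ¬ H.InCls B C A x := by
    intro A B C x ht h h'
    have h1 := (InCls.other hH hE ht h).1
    rw [h'.2.2.2] at h1
    norm_num at h1
  have hdec : S = {A, B, C} ∪ (H.cls S A B C ∪ (H.cls S B C A ∪ H.cls S C A B)) := by
    ext x
    simp only [mem_union, mem_insert, mem_singleton, mem_cls hS, hS]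
    constructor
    · intro hx
      rcases hH.cases hE ht hx with h | h | h | h | h | h
      · exact Or.inl (Or.inl h)
      · exact Or.inl (Or.inr (Or.inl h))
      · exact Or.inl (Or.inr (Or.inr h))
      · exact Or.inr (Or.inl h)
      · exact Or.inr (Or.inr (Or.inl h))
      · exact Or.inr (Or.inr (Or.inr h))
    · rintro ((rfl | rfl | rfl) | h | h | h)
      · exact ht.a
      · exact ht.b
      · exact ht.c
      · exact h.1
      · exact h.1
      · exact h.1
  have h3 : ({A, B, C} : Finset (Fin 23 → ℤ)).card = 3 := card_eq_three.2 ⟨A, B, C, hAB, hAC, hBC, rfl⟩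
  have d1 : Disjoint (H.cls S B C A) (H.cls S C A B) := by
    rw [Finset.disjoint_left]
    intro x h h'
    rw [mem_cls hS] at h h'
    exact hdis (ht.rot hH) h h'
  have d2 : Disjoint (H.cls S A B C) (H.cls S B C A ∪ H.cls S C A B) := by
    rw [Finset.disjoint_left]
    intro x h h'
    rw [mem_union, mem_cls hS, mem_cls hS] at h'
    rw [mem_cls hS] at h
    rcases h' with h' | h'
    · exact hdis ht h h'
    · exact hdis ((ht.rot hH).rot hH) h' h
  have d3 : Disjoint ({A, B, C} : Finset (Fin 23 → ℤ))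
      (H.cls S A B C ∪ (H.cls S B C A ∪ H.cls S C A B)) := by
    rw [Finset.disjoint_left]
    intro x h h'
    simp only [mem_insert, mem_singleton] at h
    simp only [mem_union, mem_cls hS] at h'
    rcases h with rfl | rfl | rfl
    · rcases h' with h' | h' | h'
      · exact hself ht h'
      · exact h'.2.2.1 rfl
      · exact h'.2.1 rfl
    · rcases h' with h' | h' | h'
      · exact h'.2.1 rfl
      · exact hself (ht.rot hH) h'
      · exact h'.2.2.1 rfl
    · rcases h' with h' | h' | h'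
      · exact h'.2.2.1 rfl
      · exact h'.2.1 rfl
      · exact hself ((ht.rot hH).rot hH) h'
  conv_lhs => rw [hdec]
  rw [card_union_of_disjoint d3, card_union_of_disjoint d2, card_union_of_disjoint d1, h3]
  ring

/-- among twelve planes two meet in a line -/
theorem exists_edge (hH : H.IsCubic) (hE : H.AllEven) {S : Finset (Fin 23 → ℤ)}
    (hS : ∀ v ∈ S, H.IsPl v) (h12 : 12 ≤ S.card) : ∃ P ∈ S, ∃ Q ∈ S, H.ip P Q = -1 := by
  classical
  by_contra hedge
  push Not at hedge
  have hp : ∀ x ∈ S, ∀ y ∈ S, x ≠ y → H.ip x y = 1 := by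
    intro x hx y hy hne
    rcases hH.pm hE (hS x hx) (hS y hy) hne with h | h
    · exact h
    · exact absurd h (hedge x hx y hy)
  obtain ⟨e⟩ : Nonempty (Fin 12 ↪ S) := by
    refine Function.Embedding.nonempty_of_card_le ?_
    rw [Fintype.card_fin, Fintype.card_coe]
    exact h12
  refine hH.twelve hE (δ := 1) (Or.inl rfl) (P0 := e 0) (P := fun j => e j.succ)
    (hS _ (e 0).2) (fun j => hS _ (e j.succ).2) (fun j => ?_) (fun i j hij => ?_)
  · refine hp _ (e 0).2 _ (e j.succ).2 fun h => ?_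
    exact (Fin.succ_ne_zero j) (e.injective (Subtype.ext h)).symm
  · refine hp _ (e i.succ).2 _ (e j.succ).2 fun h => ?_
    exact hij (Fin.succ_injective _ (e.injective (Subtype.ext h)))

/-- the sizes of the classes -/
theorem cls_sizes (hH : H.IsCubic) (hE : H.AllEven) {S : Finset (Fin 23 → ℤ)}
    (hS : ∀ v, v ∈ S ↔ H.IsPl v) {P Q R : Fin 23 → ℤ} (ht : H.Tri P Q R) :
    (S.card % 2 = 1 ∧ S.card ≤ 21) ∨ (S.card = 27 ∧ (H.cls S P Q R).card = 8) := by
  have t2 := ht.rot hH
  have t3 := t2.rot hH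
  have hc := card_decomp hH hE hS ht
  obtain ⟨a, ha⟩ := cls_even hH (fun x => mem_cls hS) ht
  obtain ⟨b, hb⟩ := cls_even hH (fun x => mem_cls hS) t2
  obtain ⟨c, hc'⟩ := cls_even hH (fun x => mem_cls hS) t3
  have f1 := cls_twenty hH hE (fun x => mem_cls hS) ht
  have f2 := cls_twenty hH hE (fun x => mem_cls hS) t2
  have f3 := cls_twenty hH hE (fun x => mem_cls hS) t3
  have g1 := fun h => cls_ten hH hE hS ht h
  have g2 := fun h => cls_ten hH hE hS t2 h
  have g3 := fun h => cls_ten hH hE hS t3 h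
  have hne : ∀ {A B C : Fin 23 → ℤ}, (H.cls S A B C).card ≠ 0 → ∃ x, H.InCls A B C x := by
    intro A B C h
    obtain ⟨x, hx⟩ := card_pos.1 (Nat.pos_of_ne_zero h)
    exact ⟨x, (mem_cls hS).1 hx⟩
  have k1 : (H.cls S P Q R).card ≠ 0 → (H.cls S Q R P).card = (H.cls S R P Q).card := by
    intro h
    obtain ⟨x, hx⟩ := hne h
    exact cls_card_eq hH hE hS ht hx
  have k2 : (H.cls S Q R P).card ≠ 0 → (H.cls S R P Q).card = (H.cls S P Q R).card := by
    intro h
    obtain ⟨x, hx⟩ := hne h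
    exact cls_card_eq hH hE hS t2 hx
  have k3 : (H.cls S R P Q).card ≠ 0 → (H.cls S P Q R).card = (H.cls S Q R P).card := by
    intro h
    obtain ⟨x, hx⟩ := hne h
    exact cls_card_eq hH hE hS t3 hx
  omega

/-- **The number of the planes** if all Hodge classes are even. -/
theorem IsCubic.card_planes (hH : H.IsCubic) (hE : H.AllEven)
    {S : Finset (Fin 23 → ℤ)} (hS : ∀ v, v ∈ S ↔ H.IsPl v) :
    S.card ≤ 11 ∨ (S.card % 2 = 1 ∧ S.card ≤ 21) ∨ S.card = 27 := by
  by_cases h12 : 12 ≤ S.card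
  · obtain ⟨P, hP, Q, hQ, hPQ⟩ := exists_edge hH hE (fun v hv => (hS v).1 hv) h12
    rw [hS] at hP hQ
    rcases cls_sizes hH hE hS (hH.tri hP hQ hPQ) with h | h
    · exact Or.inr (Or.inl h)
    · exact Or.inr (Or.inr h.1)
  · exact Or.inl (by omega)

/-- **The case of 27 planes.** -/
theorem IsCubic.card_27 (hH : H.IsCubic) (hE : H.AllEven)
    {S : Finset (Fin 23 → ℤ)} (hS : ∀ v, v ∈ S ↔ H.IsPl v) (h27 : S.card = 27)
    {A : Fin 23 → ℤ} (hA : H.IsPl A) {S' : Finset (Fin 23 → ℤ)}
    (hS' : ∀ v, v ∈ S' ↔ H.IsPl v ∧ H.ip A v = -1) : S'.card = 10 := by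
  classical
  obtain ⟨P, hP, Q, hQ, hPQ⟩ := exists_edge hH hE (fun v hv => (hS v).1 hv) (by omega)
  rw [hS] at hP hQ
  have ht := hH.tri hP hQ hPQ
  generalize H.h - P - Q = R at ht
  obtain ⟨B, hB, hAB⟩ : ∃ B, H.IsPl B ∧ H.ip A B = -1 := by
    rcases hH.cases hE ht hA with h | h | h | h | h | h
    · exact ⟨Q, hQ, h ▸ hPQ⟩
    · exact ⟨P, hP, by rw [h, hH.comm]; exact hPQ⟩
    · exact ⟨P, hP, by rw [h, hH.comm]; exact ht.ac⟩
    · exact ⟨P, hP, h.2.2.2⟩
    · exact ⟨Q, hQ, h.2.2.2⟩
    · exact ⟨R, ht.c, h.2.2.2⟩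
  have t := hH.tri hA hB hAB
  generalize H.h - A - B = C at t
  have h8 : (H.cls S A B C).card = 8 := by
    rcases cls_sizes hH hE hS t with h | h
    · omega
    · exact h.2
  have hBC : B ≠ C := by
    intro h
    have h1 := t.bc
    rw [← h, hB.2.2] at h1
    norm_num at h1
  have hdec : S' = {B, C} ∪ H.cls S A B C := by
    ext x
    rw [hS', mem_union, mem_cls hS, mem_insert, mem_singleton]
    constructor
    · rintro ⟨hx, hx'⟩
      by_cases hxB : x = B
      · exact Or.inl (Or.inl hxB)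
      by_cases hxC : x = C
      · exact Or.inl (Or.inr hxC)
      exact Or.inr ⟨hx, hxB, hxC, (hH.comm _ _).trans hx'⟩
    · rintro ((rfl | rfl) | h)
      · exact ⟨hB, hAB⟩
      · exact ⟨t.c, t.ac⟩
      · exact ⟨h.1, (hH.comm _ _).trans h.2.2.2⟩
  have hdis : Disjoint ({B, C} : Finset (Fin 23 → ℤ)) (H.cls S A B C) := by
    rw [Finset.disjoint_left]
    intro x hx hx'
    rw [mem_cls hS] at hx'
    rw [mem_insert, mem_singleton] at hx
    rcases hx with rfl | rfl
    · exact hx'.2.1 rfl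
    · exact hx'.2.2.1 rfl
  rw [hdec, card_union_of_disjoint hdis, h8, card_pair hBC]

/-- **The planes which meet a given plane in a line** if all Hodge classes are even. -/
theorem IsCubic.card_adj (hH : H.IsCubic) (hE : H.AllEven) {A : Fin 23 → ℤ}
    (hA : H.IsPl A) {S : Finset (Fin 23 → ℤ)}
    (hS : ∀ v, v ∈ S ↔ H.IsPl v ∧ H.ip A v = -1) : S.card < 21 := by
  classical
  by_contra h21
  obtain ⟨B, hB⟩ : S.Nonempty := card_pos.1 (by omega)
  have hB' := (hS B).1 hB
  have ht := hH.tri hA hB'.1 hB'.2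
  generalize H.h - A - B = C at ht
  have h1 : ∀ x, x ∈ H.cls S A B C ↔ H.InCls A B C x := by
    intro x
    unfold cls
    rw [mem_filter, hS]
    exact ⟨fun h => h.2, fun h => ⟨⟨h.1, (hH.comm _ _).trans h.2.2.2⟩, h⟩⟩
  obtain ⟨a, ha⟩ := cls_even hH h1 ht
  have h2 := cls_twenty hH hE h1 ht
  have h3 : S ⊆ {B, C} ∪ H.cls S A B C := by
    intro x hx
    rw [mem_union, h1]
    have hx' := (hS x).1 hx
    by_cases hxB : x = B
    · exact Or.inl (by simp [hxB])
    by_cases hxC : x = C
    · exact Or.inl (by simp [hxC])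
    exact Or.inr ⟨hx'.1, hxB, hxC, (hH.comm _ _).trans hx'.2⟩
  have h4 := card_le_card h3
  have h5 := card_union_le {B, C} (H.cls S A B C)
  have h6 : ({B, C} : Finset (Fin 23 → ℤ)).card ≤ 2 := card_le_two
  omega

/-- **The number of the planes and the rank** if all Hodge classes are even. -/
theorem IsCubic.card_rank (hH : H.IsCubic) (hE : H.AllEven)
    {S : Finset (Fin 23 → ℤ)} (hS : ∀ v ∈ S, H.IsPl v) : S.card < 2 ^ (23 - H.rank) := by
  refine hH.card_lt (g := fun v => H.h - v) (fun v hv T hT => hE v (hS v hv) T hT) ?_ ?_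
  · intro v hv h0
    obtain ⟨w, hw⟩ := exists_half h0
    have hv' := hS v hv
    have hw' : H.h - v = (2 : ℤ) • w := hw
    have h2 : H.IsHodge w := by
      refine H.isHodge_of_smul two_ne_zero ?_
      rw [← hw']
      exact H.isHodge_sub hH.h_hodge hv'.1
    have h3 : H.ip w H.h = 1 := by
      have h4 := congrArg (fun v => H.ip v H.h) hw'
      simp only [ip_smul_left, ip_sub_left, hH.h_self, hv'.2.1] at h4
      linarith
    have h4 : H.ip w w = 1 := by
      have h5 : H.ip ((2 : ℤ) • w) ((2 : ℤ) • w) = H.ip (H.h - v) (H.h - v) := by rw [hw']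
      simp only [ip_smul_left, ip_smul_right, ip_sub_left, ip_sub_right, hH.h_self, hv'.2.1,
        hH.comm H.h v, hv'.2.2] at h5
      linarith
    exact hH.disc_two w h2 h3 h4
  · intro v hv w hw h
    by_contra hne
    have hv' := hS v hv
    have hw' := hS w hw
    have h0 : red (v - w) = 0 := by
      have h1 : red (H.h - v) = red (H.h - w) := h
      rw [map_sub, map_sub] at h1
      rw [map_sub]
      linear_combination -h1
    obtain ⟨u, hu⟩ := exists_half h0
    have h2 : H.IsHodge u := by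
      refine H.isHodge_of_smul two_ne_zero ?_
      rw [← hu]
      exact H.isHodge_sub hv'.1 hw'.1
    have h3 : H.ip u H.h = 0 := by
      have h4 := congrArg (fun v => H.ip v H.h) hu
      simp only [ip_smul_left, ip_sub_left, hv'.2.1, hw'.2.1] at h4
      linarith
    have h4 : 4 * H.ip u u = 6 - 2 * H.ip v w := by
      have h5 : H.ip ((2 : ℤ) • u) ((2 : ℤ) • u) = H.ip (v - w) (v - w) := by rw [hu]
      simp only [ip_smul_left, ip_smul_right, ip_sub_left, ip_sub_right, hv'.2.2, hw'.2.2,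
        hH.comm w v] at h5
      linarith
    have h5 := hH.char u
    rw [h3, sub_zero] at h5
    obtain ⟨m, hm⟩ := h5
    have h6 := hH.disc_six u h2 h3
    rcases hH.pm hE hv' hw' hne with h7 | h7 <;> omega

end CubLat

end Pool.Agent.Q53.LFY
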