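import Mathlib

/-!
# Lattices of the type of the fourth cohomology of cubic fourfolds: definitions
-/

set_option autoImplicit false

namespace Pool.Agent.Q53.LFY

/-- The group `ℤ^23` with an integral bilinear form (the matrix `B`), a vector `h` and a complex
vector `ω` (a period). -/
structure CubLat where
  /-- the matrix of the form -/
  B : Matrix (Fin 23) (Fin 23) ℤ
  /-- the distinguished vector -/
  h : Fin 23 → ℤ
  /-- the period -/
  ω : Fin 23 → ℂ

namespace CubLat

variable (H : CubLat)

/-- The bilinear form. -/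
def ip (v w : Fin 23 → ℤ) : ℤ := ∑ i, ∑ j, v i * H.B i j * w j

/-- The vector `v` is a Hodge vector: it is orthogonal to the period `ω`. -/
def IsHodge (v : Fin 23 → ℤ) : Prop := ∑ i, ∑ j, (v i : ℂ) * H.B i j * H.ω j = 0

/-- The rank of the group of the Hodge vectors. -/
noncomputable def rank : ℕ := Module.finrank ℤ (Submodule.span ℤ {v | H.IsHodge v})

/-- The discriminant of the group spanned by `h` and `v`. -/
def disc (v : Fin 23 → ℤ) : ℤ := 3 * H.ip v v - H.ip H.h v ^ 2

/-- The group spanned by `h` and `v` is saturated. -/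
def Saturated (v : Fin 23 → ℤ) : Prop :=
  ∀ (x : Fin 23 → ℤ) (m a b : ℤ), m ≠ 0 → m • x = a • H.h + b • v →
    ∃ a' b' : ℤ, x = a' • H.h + b' • v

/-- Lattices of cubic type: the form is symmetric and unimodular, and positive on the Hodge vectors;
`h` is a Hodge vector with `h.h = 3` and it is characteristic (`v.v - v.h` is even); there is no Hodge
vector `v` with `v.h = 1`, `v.v = 1` or `v.h = 0`, `v.v = 2`. -/
structure IsCubic : Prop where
  symm : ∀ i j, H.B i j = H.B j i
  unimodular : IsUnit H.B.det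
  h_hodge : H.IsHodge H.h
  h_self : H.ip H.h H.h = 3
  char : ∀ v, Even (H.ip v v - H.ip v H.h)
  pos : ∀ v, H.IsHodge v → v ≠ 0 → 0 < H.ip v v
  disc_two : ∀ v, H.IsHodge v → H.ip v H.h = 1 → H.ip v v ≠ 1
  disc_six : ∀ v, H.IsHodge v → H.ip v H.h = 0 → H.ip v v ≠ 2

end CubLat

/-- The condition (**) of Hassett: `d > 6` is not divisible by `4`, `9`, or an odd prime number
`p` with `p ≡ 2 mod 3`. -/
def Admissible (d : ℤ) : Prop :=
  6 < d ∧ ¬ 4 ∣ d ∧ ¬ 9 ∣ d ∧ ∀ p : ℕ, p.Prime → p ≠ 2 → (p : ℤ) ∣ d → p % 3 ≠ 2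

/-- There is a Hodge vector `v` such that `h` and `v` span a saturated group with a discriminant as
in the condition (**). -/
def CubLat.HasK3 (H : CubLat) : Prop :=
  ∃ v, H.IsHodge v ∧ H.Saturated v ∧ Admissible (H.disc v)

end Pool.Agent.Q53.LFY
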