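import Pool.Agent.Q53.LFY.Mod

/-!
# Twelve planes
-/

set_option autoImplicit false

namespace Pool.Agent.Q53.LFY

namespace CubLat

open Finset Module

variable (H : CubLat)

/-- the class of a plane -/
def IsPl (v : Fin 23 → ℤ) : Prop := H.IsHodge v ∧ H.ip v H.h = 1 ∧ H.ip v v = 3

/-- all Hodge classes have even intersection with the residual quadrics of all planes -/
def AllEven : Prop := ∀ P, H.IsPl P → ∀ T, H.IsHodge T → Even (H.ip T (H.h - P))

variable {H}

/-- **There are no twelve planes** with these intersection numbers. -/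
theorem IsCubic.twelve (hH : H.IsCubic) (hE : H.AllEven) {δ : ℤ} (hδ : δ = 1 ∨ δ = -1)
    {P0 : Fin 23 → ℤ} {P : Fin 11 → Fin 23 → ℤ} (h0 : H.IsPl P0) (hP : ∀ j, H.IsPl (P j))
    (h0P : ∀ j, H.ip P0 (P j) = δ) (hPP : ∀ i j, i ≠ j → H.ip (P i) (P j) = 1) : False := by
  classical
  have hPh : ∀ j, H.ip (P j) H.h = 1 := fun j => (hP j).2.1
  have hhP : ∀ j, H.ip H.h (P j) = 1 := fun j => (hH.comm _ _).trans (hPh j)
  have h0h : H.ip P0 H.h = 1 := h0.2.1
  have hh0 : H.ip H.h P0 = 1 := (hH.comm _ _).trans h0h
  have hP0 : ∀ j, H.ip (P j) P0 = δ := fun j => (hH.comm _ _).trans (h0P j)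
  have hPP' : ∀ i j, H.ip (P i) (P j) = 1 + if i = j then 2 else 0 := by
    intro i j
    by_cases h : i = j
    · rw [h, (hP j).2.2, if_pos rfl]; norm_num
    · rw [hPP i j h, if_neg h, add_zero]
  let g : Option (Fin 10) → Fin 23 → ℤ := fun o => o.elim (H.h - P0) fun j => H.h - P j.castSucc
  let f : Option (Option (Fin 11)) → Fin 23 → ℤ := fun o => o.elim H.h fun o => o.elim P0 P
  have hgn : g none = H.h - P0 := rfl
  have hgs : ∀ j, g (some j) = H.h - P j.castSucc := fun j => rfl
  have hfn : f none = H.h := rfl
  have hfsn : f (some none) = P0 := rfl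
  have hfss : ∀ j, f (some (some j)) = P j := fun j => rfl
  refine hH.count (g := g) (f := f) (by simp) ?_ ?_ ?_ ?_
  · rintro (_ | _ | j)
    · exact hH.h_hodge
    · exact h0.1
    · exact (hP j).1
  · rw [Fintype.linearIndependent_iff]
    intro c hc
    simp only [Fintype.sum_option, hfn, hfsn, hfss] at hc
    set a := c none
    set b := c (some none)
    set s : ℤ := ∑ j, c (some (some j)) with hs
    have e1 : 3 * a + b + s = 0 := by
      have h1 := congrArg (fun v => H.ip v H.h) hc
      simp only [ip_add_left, ip_sum_left, ip_smul_left, hH.h_self, h0h, hPh, ip_zero_left,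
        mul_one] at h1
      rw [← hs] at h1
      linarith
    have e2 : a + 3 * b + δ * s = 0 := by
      have h1 := congrArg (fun v => H.ip v P0) hc
      simp only [ip_add_left, ip_sum_left, ip_smul_left, hh0, h0.2.2, hP0, ip_zero_left,
        mul_one, ← sum_mul] at h1
      rw [← hs] at h1
      linarith
    have e3 : ∀ j, a + δ * b + s + 2 * c (some (some j)) = 0 := by
      intro j
      have h1 := congrArg (fun v => H.ip v (P j)) hc
      simp only [ip_add_left, ip_sum_left, ip_smul_left, hhP, h0P, hPP', ip_zero_left,
        mul_one, mul_add, sum_add_distrib, mul_ite, mul_zero, Finset.sum_ite_eq',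
        Finset.mem_univ, if_true] at h1
      rw [← hs] at h1
      linarith
    have e4 : 11 * (a + δ * b + s) + 2 * s = 0 := by
      have h1 : ∑ j : Fin 11, (a + δ * b + s + 2 * c (some (some j))) = 0 :=
        sum_eq_zero fun j _ => e3 j
      rw [sum_add_distrib, ← mul_sum, ← hs, sum_const, card_univ, Fintype.card_fin,
        nsmul_eq_mul] at h1
      push_cast at h1
      exact h1
    have e5 : a = 0 ∧ b = 0 ∧ s = 0 := by
      rcases hδ with rfl | rfl
      · refine ⟨?_, ?_, ?_⟩ <;> linarith
      · refine ⟨?_, ?_, ?_⟩ <;> linarith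
    rintro (_ | _ | j)
    · exact e5.1
    · exact e5.2.1
    · have h1 := e3 j
      rw [e5.1, e5.2.1, e5.2.2] at h1
      linarith
  · rintro (_ | j) T hT
    · exact hE _ h0 T hT
    · exact hE _ (hP _) T hT
  · rintro ε ⟨v, hv⟩
    simp only [Fintype.sum_option, hgn, hgs] at hv
    set e := ε none
    set s : ℤ := ∑ j, ε (some j) with hs
    have hvH : H.IsHodge v := by
      refine H.isHodge_of_smul two_ne_zero ?_
      rw [← hv]
      refine H.isHodge_add (H.isHodge_smul _ (H.isHodge_sub hH.h_hodge h0.1)) ?_
      exact H.isHodge_sum _ _ fun j _ => H.isHodge_smul _ (H.isHodge_sub hH.h_hodge (hP _).1)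
    have e1 : H.ip v H.h = e + s := by
      have h1 := congrArg (fun v => H.ip v H.h) hv
      simp only [ip_add_left, ip_sum_left, ip_smul_left, ip_sub_left, hH.h_self, h0h, hPh,
        ← sum_mul] at h1
      rw [← hs] at h1
      linarith
    have e2 : 2 * H.ip v (P (Fin.last 10)) = e * (1 - δ) := by
      have h1 := congrArg (fun v => H.ip v (P (Fin.last 10))) hv
      simp only [ip_add_left, ip_sum_left, ip_smul_left, ip_sub_left, hhP, h0P, hPP'] at h1
      have h2 : ∀ j : Fin 10, (if j.castSucc = Fin.last 10 then (2 : ℤ) else 0) = 0 := by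
        intro j
        rw [if_neg (Fin.castSucc_lt_last j).ne]
      simp only [h2, add_zero, sub_self, mul_zero, sum_const_zero] at h1
      linarith
    have e3 : ∀ j : Fin 10, 2 * H.ip v (P j.castSucc) = e * (1 - δ) - 2 * ε (some j) := by
      intro j
      have h1 := congrArg (fun v => H.ip v (P j.castSucc)) hv
      simp only [ip_add_left, ip_sum_left, ip_smul_left, ip_sub_left, hhP, h0P, hPP'] at h1
      have h2 : ∀ i : Fin 10, ε (some i) * (1 - (1 + if i.castSucc = j.castSucc then (2 : ℤ) else 0))
          = if i = j then -2 * ε (some j) else 0 := by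
        intro i
        by_cases h : i = j
        · rw [h, if_pos rfl, if_pos rfl]; ring
        · rw [if_neg h, if_neg (fun h' => h (Fin.castSucc_injective _ h'))]; ring
      simp only [h2, Finset.sum_ite_eq', Finset.mem_univ, if_true] at h1
      linarith
    have p1 := hE _ (hP (Fin.last 10)) v hvH
    rw [ip_sub_right, e1] at p1
    have p2 : ∀ j : Fin 10, Even (ε (some j)) := by
      intro j
      have h1 := hE _ (hP j.castSucc) v hvH
      rw [ip_sub_right, e1] at h1
      have h2 := e3 j
      have h3 : ε (some j) = H.ip v (P (Fin.last 10)) - H.ip v (P j.castSucc) := by linarith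
      rw [h3]
      have h4 := h1.sub p1
      have h5 : e + s - H.ip v (P j.castSucc) - (e + s - H.ip v (P (Fin.last 10))) =
          H.ip v (P (Fin.last 10)) - H.ip v (P j.castSucc) := by ring
      rwa [h5] at h4
    have p3 : Even s := by
      rw [hs]
      exact Finset.even_sum _ fun j _ => p2 j
    rintro (_ | j)
    · change Even e
      rcases hδ with rfl | rfl
      · have h1 : H.ip v (P (Fin.last 10)) = 0 := by linarith
        rw [h1, sub_zero] at p1
        have h2 := p1.sub p3
        rwa [add_sub_cancel_right] at h2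
      · by_contra hodd
        rw [Int.not_even_iff_odd] at hodd
        obtain ⟨m, hm⟩ := hodd
        choose d hd using p2
        let v' := v - ∑ j, d j • (H.h - P j.castSucc) - m • (H.h - P0)
        have h1 : (2 : ℤ) • v' = H.h - P0 := by
          have h2 : ∀ j : Fin 10, ε (some j) • (H.h - P j.castSucc) =
              (2 : ℤ) • (d j • (H.h - P j.castSucc)) := by
            intro j
            rw [hd j, smul_smul]
            congr 1
            ring
          simp only [h2, ← smul_sum] at hv
          have h3 : (2 : ℤ) • v' = (2 : ℤ) • v - (2 : ℤ) • ∑ j, d j • (H.h - P j.castSucc) -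
              (2 * m) • (H.h - P0) := by
            simp only [v']
            rw [smul_sub, smul_sub, smul_smul]
          rw [h3, ← hv, hm]
          module
        have h2 : H.IsHodge v' := by
          refine H.isHodge_of_smul two_ne_zero ?_
          rw [h1]
          exact H.isHodge_sub hH.h_hodge h0.1
        have h3 : H.ip v' H.h = 1 := by
          have h4 := congrArg (fun v => H.ip v H.h) h1
          simp only [ip_smul_left, ip_sub_left, hH.h_self, h0h] at h4
          linarith
        have h4 : H.ip v' v' = 1 := by
          have h5 : H.ip ((2 : ℤ) • v') ((2 : ℤ) • v') = H.ip (H.h - P0) (H.h - P0) := by rw [h1]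
          simp only [ip_smul_left, ip_smul_right, ip_sub_left, ip_sub_right, hH.h_self, h0h,
            hh0, h0.2.2] at h5
          linarith
        exact hH.disc_two v' h2 h3 h4
    · exact p2 j

end CubLat

end Pool.Agent.Q53.LFY
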